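import Pool.Agent.R580.ResetTuple

set_option autoImplicit false

/-!
# Finding a reset `m`-tuple of an `m`-primitive automaton in polynomial time

Definitions used in the statement: `hurwitz` (from `Pool.Agent.R580.Hurwitz5`), `mat`, `act`,
`table` (from `Pool.Agent.R580.ResetTuple`), and `PolyTime`, `bits` (from `Pool.Agent.NPC.Defs`,
which uses the Turing machines of Mathlib).
-/

open Pool.Agent.NPC Pool.Agent.R580.Hurwitz Pool.Agent.NPC.Hurw

namespace Pool.Agent.Results.MP_f1b42c_lc.ResetTuple

variable {n m : ℕ}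

/-- `α` has positive length and the Hurwitz product `A^α` of the matrices of the actions is
entrywise positive. -/
def IsPositive (a : Fin m → Fin n → Fin n) (α : Fin m → ℕ) : Prop :=
  1 ≤ ∑ k, α k ∧ ∀ q p, 0 < hurwitz (mat a) α q p

/-- The automaton is `m`-primitive. -/
def MPrimitive (a : Fin m → Fin n → Fin n) : Prop := ∃ α, IsPositive a α

/-- `α` is a reset `m`-tuple: it has positive length, and there is a state `q₀` such that every
state `p` is sent to `q₀` by some word with `α i` letters `i` (for all `i`). -/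
def IsResetTuple (a : Fin m → Fin n → Fin n) (α : Fin m → ℕ) : Prop :=
  1 ≤ ∑ k, α k ∧ ∃ q₀, ∀ p, ∃ w : List (Fin m), (∀ i, w.count i = α i) ∧ act a p w = q₀

/-- **Theorem.** There is a polynomial-time algorithm which, given the transition tables of an
`m`-primitive automaton, outputs (in binary) a reset `m`-tuple of it; in fact it is the tuple of a
positive Hurwitz product. -/
theorem result : ∃ F : List Bool → List Bool, PolyTime F ∧
    ∀ (n m : ℕ) (a : Fin m → Fin n → Fin n), 0 < n → MPrimitive a →
      ∃ α : Fin m → ℕ, IsResetTuple a α ∧ IsPositive a α ∧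
        F (bits (table a)) = bits (List.ofFn α) := by
  refine ⟨_, polyTime_opt (Pool.Agent.NPC.Poly.optMap (o := unbits (List (List ℕ)))
    (f := fun _ t => out (conv t)) poly_unbits ((poly_out.comp poly_conv).comp
      (Pool.Agent.NPC.Poly.snd Pool.Agent.NPC.Poly.id))), ?_⟩
  intro n m a hn hprim
  classical
  obtain ⟨α₀, hα₀, hpos⟩ := hprim
  have hm : 0 < m := by
    rcases Nat.eq_zero_or_pos m with h | h
    · subst h
      simp at hα₀
    · exact h
  have hA := mat_nonneg a
  have hreach : ∀ i j, Reach (fun k i j => 0 < mat a k i j) i j α₀ := fun i j =>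
    (hurwitz_pos_iff hA α₀ i j).1 (hpos i j)
  obtain ⟨h1, h2⟩ := positive_vector (E := fun k i j => 0 < mat a k i j) ⟨0, hn⟩ hreach hα₀
    (bb_le n m) Nat.one_le_two_pow
  refine ⟨_, ⟨h2, ⟨0, hn⟩, fun p => ?_⟩, ⟨h2, fun i j => (hurwitz_pos_iff hA _ i j).2 (h1 i j)⟩, ?_⟩
  · obtain ⟨l, hl, hw⟩ := h1 ⟨0, hn⟩ p
    exact ⟨l.reverse, fun i => by rw [List.count_reverse, hl i], act_of_walk hw⟩
  · rw [unbits_bits, ← out_rawc (mat a) hA hm hn, ← conv_table]
    rfl

end Pool.Agent.Results.MP_f1b42c_lc.ResetTuple
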